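import Pool.Agent.MP_db5b97_nt.H85.Spec

/-! Densities of primes: the second inequality and norms from a disjoint extension. -/

namespace Pool.Agent.MP_db5b97_nt.H19

open H85 NumberField IsDedekindDomain Filter Topology

/-! ### Sums along maps with bounded fibres -/

theorem tsum_le_mul {X Y : Type} (f : X → Y) (a : X → ℝ) (b : Y → ℝ) (n : ℕ) (ha : 0 ≤ a)
    (hb : 0 ≤ b) (hs : Summable b) (hab : ∀ x, a x ≤ b (f x))
    (hn : ∀ y, ∀ t : Finset X, (∀ x ∈ t, f x = y) → t.card ≤ n) :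
    ∑' x, a x ≤ n * ∑' y, b y := by
  classical
  refine Real.tsum_le_of_sum_le ha fun t => ?_
  calc ∑ x ∈ t, a x ≤ ∑ x ∈ t, b (f x) := Finset.sum_le_sum fun x _ => hab x
    _ = ∑ y ∈ t.image f, (t.filter (f · = y)).card • b y := Finset.sum_comp b f
    _ ≤ ∑ y ∈ t.image f, n * b y := Finset.sum_le_sum fun y _ => by
        rw [nsmul_eq_mul]
        exact mul_le_mul_of_nonneg_right
          (by exact_mod_cast hn y _ fun x hx => (Finset.mem_filter.1 hx).2) (hb y)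
    _ = n * ∑ y ∈ t.image f, b y := (Finset.mul_sum _ _ _).symm
    _ ≤ n * ∑' y, b y :=
        mul_le_mul_of_nonneg_left (hs.sum_le_tsum _ fun y _ => hb y) (Nat.cast_nonneg n)

theorem mul_tsum_le {X Y : Type} (f : X → Y) (a : X → ℝ) (b : Y → ℝ) (n : ℕ) (ha : 0 ≤ a)
    (hb : 0 ≤ b) (hs : Summable a)
    (hn : ∀ y, ∃ t : Finset X, (∀ x ∈ t, f x = y) ∧ n * b y ≤ ∑ x ∈ t, a x) :
    n * ∑' y, b y ≤ ∑' x, a x := by
  classical
  choose t ht ht' using hn
  rw [← tsum_mul_left]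
  refine Real.tsum_le_of_sum_le (fun y => mul_nonneg (Nat.cast_nonneg n) (hb y)) fun u => ?_
  calc ∑ y ∈ u, n * b y ≤ ∑ y ∈ u, ∑ x ∈ t y, a x := Finset.sum_le_sum fun y _ => ht' y
    _ = ∑ x ∈ u.biUnion t, a x := by
        refine (Finset.sum_biUnion fun y _ y' _ h => Finset.disjoint_left.2 fun x hx hx' => ?_).symm
        exact h ((ht y x hx).symm.trans (ht y' x hx'))
    _ ≤ ∑' x, a x := hs.sum_le_tsum _ fun x _ => ha x

theorem tendsto_L : Tendsto (fun s : ℝ => Real.log (1 / (s - 1))) (𝓝[>] 1) atTop := by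
  refine Real.tendsto_log_atTop.comp ?_
  simp only [one_div]
  refine tendsto_inv_nhdsGT_zero.comp (tendsto_nhdsWithin_iff.2 ⟨?_, ?_⟩)
  · have : Tendsto (fun s : ℝ => s - 1) (𝓝 1) (𝓝 (1 - 1)) := tendsto_id.sub_const 1
    rw [sub_self] at this
    exact this.mono_left nhdsWithin_le_nhds
  · filter_upwards [self_mem_nhdsWithin] with s (hs : 1 < s)
    exact sub_pos.2 hs

theorem not_bdd (C : ℝ) : ¬ ∀ᶠ s in 𝓝[>] (1 : ℝ), Real.log (1 / (s - 1)) ≤ C := fun h => by
  obtain ⟨s, h1, h2⟩ := (h.and (tendsto_L.eventually_gt_atTop C)).exists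
  exact absurd h1 (not_le.2 h2)

/-! ### Sums over primes -/

section PS

variable {E : Type} [Field E] [NumberField E] {l : ℕ}

theorem nz_nonneg (I : Ideal (𝓞 E)) (s : ℝ) : 0 ≤ nz I s := Real.rpow_nonneg (Nat.cast_nonneg _) _

theorem one_le_norm (v : Sp E) : (1 : ℝ) ≤ Ideal.absNorm v.asIdeal := by
  have : Ideal.absNorm v.asIdeal ≠ 0 := fun h => v.ne_bot (Ideal.absNorm_eq_zero_iff.1 h)
  exact_mod_cast Nat.one_le_iff_ne_zero.2 this

theorem nz_le_one (v : Sp E) {s : ℝ} (hs : 0 ≤ s) : nz v.asIdeal s ≤ 1 :=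
  Real.rpow_le_one_of_one_le_of_nonpos (one_le_norm v) (neg_nonpos.2 hs)

/-- the term attached to a prime in a set -/
noncomputable def wt (A : Set (Pr E l)) (s : ℝ) : Pr E l → ℝ :=
  A.indicator fun v => nz v.1.asIdeal s

/-- the sum over a set of primes -/
noncomputable def PS (A : Set (Pr E l)) (s : ℝ) : ℝ := ∑' v, wt A s v

theorem wt_nonneg (A : Set (Pr E l)) (s : ℝ) : 0 ≤ wt A s :=
  fun v => Set.indicator_nonneg (fun _ _ => nz_nonneg _ _) v

theorem wt_mem {A : Set (Pr E l)} {v : Pr E l} (h : v ∈ A) (s : ℝ) :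
    wt A s v = nz v.1.asIdeal s := Set.indicator_of_mem h _

theorem wt_not {A : Set (Pr E l)} {v : Pr E l} (h : v ∉ A) (s : ℝ) : wt A s v = 0 :=
  Set.indicator_of_notMem h _

theorem sum_sp (hZ : RowZ) {s : ℝ} (hs : 1 < s) : Summable fun v : Sp E => nz v.asIdeal s :=
  ((hZ E).1 s hs).comp_injective fun _ _ h => HeightOneSpectrum.ext h

theorem sum_wt (hZ : RowZ) (A : Set (Pr E l)) {s : ℝ} (hs : 1 < s) : Summable (wt A s) :=
  Summable.indicator ((sum_sp hZ hs).comp_injective Subtype.val_injective) A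

theorem PS_nonneg (A : Set (Pr E l)) (s : ℝ) : 0 ≤ PS A s := tsum_nonneg (wt_nonneg A s)

theorem PS_le_add (hZ : RowZ) {A B C : Set (Pr E l)} (h : A ⊆ B ∪ C) {s : ℝ} (hs : 1 < s) :
    PS A s ≤ PS B s + PS C s := by
  rw [PS, PS, PS, ← (sum_wt hZ B hs).tsum_add (sum_wt hZ C hs)]
  refine (sum_wt hZ A hs).tsum_le_tsum (fun v => ?_) ((sum_wt hZ B hs).add (sum_wt hZ C hs))
  by_cases hv : v ∈ A
  · rcases h hv with h | h
    · rw [wt_mem hv, wt_mem h]
      exact le_add_of_nonneg_right (wt_nonneg _ _ _)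
    · rw [wt_mem hv, wt_mem h]
      exact le_add_of_nonneg_left (wt_nonneg _ _ _)
  · rw [wt_not hv]
    exact add_nonneg (wt_nonneg _ _ _) (wt_nonneg _ _ _)

theorem add_le_PS (hZ : RowZ) {A B : Set (Pr E l)} (h : B ⊆ A) {s : ℝ} (hs : 1 < s) :
    PS B s + PS (A \ B) s ≤ PS A s := by
  rw [PS, PS, PS, ← (sum_wt hZ B hs).tsum_add (sum_wt hZ _ hs)]
  refine ((sum_wt hZ B hs).add (sum_wt hZ _ hs)).tsum_le_tsum (fun v => ?_) (sum_wt hZ A hs)
  by_cases hv : v ∈ B
  · rw [wt_mem hv, wt_mem (h hv), wt_not fun h' => h'.2 hv, add_zero]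
  · rw [wt_not hv, zero_add]
    by_cases hA : v ∈ A
    · rw [wt_mem hA, wt_mem (show v ∈ A \ B from ⟨hA, hv⟩)]
    · rw [wt_not hA, wt_not fun h' => hA h'.1]

theorem pl_finite (hl : l ≠ 0) : {w : Sp E | (l : 𝓞 E) ∈ w.asIdeal}.Finite := by
  have := Ideal.finite_factors (I := Ideal.span {(l : 𝓞 E)}) (by simpa using hl)
  refine this.subset fun w (hw : (l : 𝓞 E) ∈ w.asIdeal) => ?_
  simpa [Ideal.dvd_span_singleton] using hw

variable (E l) in
theorem PS_univ (hZ : RowZ) (hl : l ≠ 0) : ∃ C : ℝ, ∀ᶠ s in 𝓝[>] (1 : ℝ),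
    Real.log (1 / (s - 1)) - C ≤ PS (Set.univ : Set (Pr E l)) s ∧
      PS (Set.univ : Set (Pr E l)) s ≤ Real.log (1 / (s - 1)) + C := by
  obtain ⟨C, hC⟩ := (hZ E).2.2
  let P : Finset (Sp E) := (pl_finite (E := E) hl).toFinset
  refine ⟨C + P.card, ?_⟩
  filter_upwards [hC, self_mem_nhdsWithin] with s h (hs : 1 < s)
  have e1 : PS (Set.univ : Set (Pr E l)) s =
      ∑' v : ((P : Set (Sp E))ᶜ : Set (Sp E)), nz v.1.asIdeal s := by
    rw [PS, wt, Set.indicator_univ]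
    have : ((P : Set (Sp E))ᶜ : Set (Sp E)) = {w | (l : 𝓞 E) ∉ w.asIdeal} := by
      ext w
      simp [P]
    rw [this]
    rfl
  have e2 := (sum_sp (E := E) hZ hs).sum_add_tsum_compl (s := P)
  have h1 : 0 ≤ ∑ v ∈ P, nz v.asIdeal s := Finset.sum_nonneg fun v _ => nz_nonneg _ _
  have h2 : ∑ v ∈ P, nz v.asIdeal s ≤ P.card := by
    simpa using Finset.sum_le_card_nsmul P _ 1 fun v _ => nz_le_one v (by linarith)
  have h3 : (0 : ℝ) ≤ P.card := Nat.cast_nonneg _
  rw [e1]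
  rw [← e2, abs_le] at h
  constructor <;> linarith [h.1, h.2]

end PS

/-! ### Primes in an extension -/

section Ext

variable (k : Type) [Field k] [NumberField k] {E : Type} [Field E] [NumberField E] [Algebra k E]
  {l : ℕ}

/-- the residue degree -/
noncomputable def fd (w : Pr E l) : ℕ := w.1.asIdeal.inertiaDeg (𝓞 k)

instance liesOver (w : Pr E l) : w.1.asIdeal.LiesOver (w.und k).1.asIdeal := ⟨rfl⟩

theorem norm_pow (w : Pr E l) :
    Ideal.absNorm (w.und k).1.asIdeal ^ fd k w = Ideal.absNorm w.1.asIdeal :=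
  Ideal.absNorm_pow_inertiaDeg _ _

theorem fd_pos (w : Pr E l) : 0 < fd k w := Ideal.inertiaDeg_pos _ _

omit [NumberField k] [NumberField E] in
theorem nrD_single (w : Pr E l) :
    nrD E l k (Finsupp.single w 1) = Finsupp.single (w.und k) (fd k w : ℤ) := by
  simp [nrD, fd]

theorem nz_of_fd {w : Pr E l} (h : fd k w = 1) (s : ℝ) :
    nz w.1.asIdeal s = nz (w.und k).1.asIdeal s := by
  rw [nz, nz, ← norm_pow k w, h, pow_one]

theorem nz_of_fd_ne {w : Pr E l} (h : fd k w ≠ 1) {s : ℝ} (hs : 1 < s) :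
    nz w.1.asIdeal s ≤ nz (w.und k).1.asIdeal 2 := by
  have h2 : (2 : ℝ) ≤ fd k w := by
    have := fd_pos k w
    exact_mod_cast (by omega : 2 ≤ fd k w)
  rw [nz, nz, ← norm_pow k w, Nat.cast_pow, ← Real.rpow_natCast,
    ← Real.rpow_mul (Nat.cast_nonneg _)]
  exact Real.rpow_le_rpow_of_exponent_le (one_le_norm _) (by nlinarith)

theorem card_fibre (v : Pr k l) (t : Finset (Pr E l)) (h : ∀ w ∈ t, w.und k = v) :
    t.card ≤ Module.finrank k E := by
  have := v.1.isPrime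
  have : Fintype (v.1.asIdeal.primesOver (𝓞 E)) :=
    (Algebra.QuasiFinite.finite_primesOver v.1.asIdeal).fintype
  have e := Ideal.sum_ramification_inertia_eq_finrank v.1.asIdeal (𝓞 E)
  rw [← IsFractionRing.finrank_eq (𝓞 k) k (𝓞 E) E] at e
  rw [← e]
  calc t.card = Fintype.card t := (Fintype.card_coe t).symm
    _ ≤ Fintype.card (v.1.asIdeal.primesOver (𝓞 E)) := by
        refine Fintype.card_le_of_injective
          (fun w => ⟨w.1.1.asIdeal, w.1.1.isPrime, h w.1 w.2 ▸ liesOver k w.1⟩) fun w w' e => ?_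
        exact Subtype.ext (Subtype.ext (HeightOneSpectrum.ext (congrArg Subtype.val e)))
    _ = ∑ _q : v.1.asIdeal.primesOver (𝓞 E), 1 := by simp
    _ ≤ _ := Finset.sum_le_sum fun q _ =>
        Nat.mul_pos (Ideal.ramificationIdx_pos _ _) (Ideal.inertiaDeg_pos _ _)

theorem PS_deg (hZ : RowZ) {s : ℝ} (hs : 1 < s) : PS {w : Pr E l | fd k w ≠ 1} s ≤
    Module.finrank k E * PS (Set.univ : Set (Pr k l)) 2 := by
  refine tsum_le_mul (Pr.und k) _ _ _ (wt_nonneg _ _) (wt_nonneg _ _) (sum_wt hZ _ one_lt_two)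
    (fun w => ?_) (card_fibre k)
  by_cases h : fd k w = 1
  · rw [wt_not (by simpa using h)]
    exact wt_nonneg _ _ _
  · rw [wt_mem (by simpa using h), wt_mem (Set.mem_univ _)]
    exact nz_of_fd_ne k h hs

theorem PS_one (hZ : RowZ) (T : Set (Pr k l)) {s : ℝ} (hs : 1 < s) :
    PS {w : Pr E l | fd k w = 1 ∧ w.und k ∈ T} s ≤ Module.finrank k E * PS T s := by
  refine tsum_le_mul (Pr.und k) _ _ _ (wt_nonneg _ _) (wt_nonneg _ _) (sum_wt hZ _ hs)
    (fun w => ?_) (card_fibre k)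
  by_cases h : fd k w = 1 ∧ w.und k ∈ T
  · rw [wt_mem (by simpa using h), wt_mem h.2, nz_of_fd k h.1]
  · rw [wt_not (by simpa using h)]
    exact wt_nonneg _ _ _

variable (E) in
/-- lower bound for a set containing the primes below the primes of degree one -/
theorem low (hZ : RowZ) (hl : l ≠ 0) (T : Set (Pr k l))
    (hT : ∀ w : Pr E l, fd k w = 1 → w.und k ∈ T) :
    ∃ C : ℝ, ∀ᶠ s in 𝓝[>] (1 : ℝ), Real.log (1 / (s - 1)) - C ≤ Module.finrank k E * PS T s := by
  obtain ⟨C, hC⟩ := PS_univ E l hZ hl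
  refine ⟨C + Module.finrank k E * PS (Set.univ : Set (Pr k l)) 2, ?_⟩
  filter_upwards [hC, self_mem_nhdsWithin] with s h (hs : 1 < s)
  have h1 : PS (Set.univ : Set (Pr E l)) s ≤ PS {w : Pr E l | fd k w ≠ 1} s +
      PS {w : Pr E l | fd k w = 1 ∧ w.und k ∈ T} s := by
    refine PS_le_add hZ (fun w _ => ?_) hs
    by_cases h : fd k w = 1
    · exact Or.inr ⟨h, hT w h⟩
    · exact Or.inl h
  linarith [h.1, PS_deg k (E := E) (l := l) hZ hs, PS_one k (E := E) hZ T hs]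

omit [NumberField k] [NumberField E] in
theorem exists_over (v : Pr k l) : ∃ w : Pr E l, w.und k = v := by
  have := v.1.isPrime
  obtain ⟨⟨Q, hQ, hQ'⟩⟩ := (inferInstance : Nonempty (v.1.asIdeal.primesOver (𝓞 E)))
  have hb : Q ≠ ⊥ := Ideal.ne_bot_of_liesOver_of_ne_bot v.1.ne_bot Q
  refine ⟨⟨⟨Q, hQ, hb⟩, fun h => v.2 ?_⟩, Subtype.ext (HeightOneSpectrum.ext hQ'.over.symm)⟩
  rw [hQ'.over, Ideal.mem_comap, map_natCast]
  exact h

end Ext

theorem up (hR : RowRC) (k : Type) [Field k] [NumberField k] (l M : ℕ) (B : Type) [AddCommGroup B]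
    [Finite B] (χ : Dv k l →+ B) (hl : 2 ≤ l) (hχ : Function.Surjective χ)
    (h0 : ∀ x ∈ Ray k l M, χ (dv k l x) = 0) : ∃ C : ℝ, ∀ᶠ s in 𝓝[>] (1 : ℝ),
      Nat.card B * PS {v : Pr k l | χ (Finsupp.single v 1) = 0} s ≤
        Real.log (1 / (s - 1)) + C := by
  obtain ⟨C, hC⟩ := hR k l M B χ hl hχ h0
  refine ⟨C, hC.mono fun s h => ?_⟩
  rw [PS, wt, ← tsum_subtype]
  exact h

theorem rowSI (hZ : RowZ) (hR : RowRC) : RowSI := by
  intro k F _ _ _ _ _ l M B _ _ χ hl hχ h0 hN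
  obtain ⟨C, hC⟩ := up hR k l M B χ hl hχ h0
  obtain ⟨C', hC'⟩ := low k F hZ (by omega) {v : Pr k l | χ (Finsupp.single v 1) = 0}
    fun w hw => by simpa [nrD_single, hw] using hN (Finsupp.single w 1)
  by_contra hlt
  have hb : (Module.finrank k F : ℝ) + 1 ≤ Nat.card B := by exact_mod_cast not_le.1 hlt
  refine not_bdd (max C' ((Module.finrank k F + 1) * C' + Module.finrank k F * C)) ?_
  filter_upwards [hC, hC'] with s h h'
  rw [le_max_iff, ← not_lt, ← imp_iff_not_or]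
  intro h1
  have hP := PS_nonneg {v : Pr k l | χ (Finsupp.single v 1) = 0} s
  have hn : (0 : ℝ) ≤ Module.finrank k F := Nat.cast_nonneg _
  generalize PS {v : Pr k l | χ (Finsupp.single v 1) = 0} s = P at *
  generalize Real.log (1 / (s - 1)) = L at *
  generalize (Module.finrank k F : ℝ) = n at *
  generalize (Nat.card B : ℝ) = b at *
  have h2 : (n + 1) * P ≤ L + C := (mul_le_mul_of_nonneg_right hb hP).trans h
  have h3 := mul_le_mul_of_nonneg_left h2 hn
  have h4 := mul_le_mul_of_nonneg_left h' (add_nonneg hn zero_le_one)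
  nlinarith

/-! ### Cyclic extensions of prime degree -/

section Cyc

variable (k : Type) [Field k] [NumberField k] {F : Type} [Field F] [NumberField F] [Algebra k F]
  {l p : ℕ} {G : Type} [Group G] [MulSemiringAction G F] [IsGaloisGroup G k F]

theorem und_smul (g : G) (w : Pr F l) : (g • w).und k = w.und k := by
  refine Subtype.ext (HeightOneSpectrum.ext ?_)
  have : (g • w).1.asIdeal.LiesOver (w.und k).1.asIdeal :=
    Ideal.LiesOver.smul (p := (w.und k).1.asIdeal) (P := w.1.asIdeal) g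
  exact this.over.symm

theorem exists_smul [Finite G] {w w' : Pr F l} (h : w.und k = w'.und k) : ∃ g : G, g • w = w' := by
  have := w.1.isPrime
  have := w'.1.isPrime
  have : w'.1.asIdeal.LiesOver (w.und k).1.asIdeal := h ▸ liesOver k w'
  obtain ⟨g, hg⟩ :=
    Ideal.exists_smul_eq_of_isGaloisGroup (w.und k).1.asIdeal w.1.asIdeal w'.1.asIdeal G
  exact ⟨g, Subtype.ext (HeightOneSpectrum.ext hg)⟩

theorem efg [Finite G] (w : Pr F l) : ((w.und k).1.asIdeal.primesOver (𝓞 F)).ncard *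
    (w.1.asIdeal.ramificationIdx (𝓞 k) * fd k w) = Nat.card G := by
  have := w.1.isPrime
  have := (w.und k).1.isPrime
  rw [← Ideal.ncard_primesOver_mul_ramificationIdxIn_mul_inertiaDegIn (w.und k).1.asIdeal (𝓞 F) G,
    Ideal.ramificationIdxIn_eq_ramificationIdx _ w.1.asIdeal G,
    Ideal.inertiaDegIn_eq_inertiaDeg _ w.1.asIdeal G, fd]

theorem stab (hp : p.Prime) (hG : Nat.card G = p) {X : Type} [MulAction G X] (x : X) :
    (∀ g : G, g • x = x) ∨ ∀ g : G, g • x = x → g = 1 := by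
  have : Fact (Nat.card G).Prime := ⟨hG ▸ hp⟩
  rcases (MulAction.stabilizer G x).eq_bot_or_eq_top_of_prime_card with h | h
  · exact Or.inr fun g hg => by simpa [h] using MulAction.mem_stabilizer_iff.2 hg
  · exact Or.inl fun g => MulAction.mem_stabilizer_iff.1 (h ▸ Subgroup.mem_top g)

theorem fd_of_ne (hp : p.Prime) (hG : Nat.card G = p) {σ : G} {w : Pr F l} (h : σ • w ≠ w) :
    fd k w = 1 := by
  have : Finite G := Nat.finite_of_card_ne_zero (hG ▸ hp.ne_zero)
  have e := efg k (G := G) w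
  rw [hG] at e
  rcases (Nat.dvd_prime hp).1 (Dvd.intro _ e) with h1 | h1
  · obtain ⟨Q, hQ⟩ := Set.ncard_eq_one.1 h1
    have m : ∀ u : Pr F l, u.und k = w.und k → u.1.asIdeal = Q := fun u hu => by
      rw [← Set.mem_singleton_iff, ← hQ]
      exact ⟨u.1.isPrime, hu ▸ liesOver k u⟩
    exact absurd (Subtype.ext (HeightOneSpectrum.ext
      ((m _ (und_smul k σ w)).trans (m w rfl).symm))) h
  · rw [h1] at e
    exact Nat.eq_one_of_mul_eq_one_left ((mul_eq_left₀ hp.ne_zero).1 e)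

theorem ne_of_fd (hp : p.Prime) (hG : Nat.card G = p) (hU : Unr k F l) {σ : G} (hσ : σ ≠ 1)
    {w : Pr F l} (h : fd k w = 1) : σ • w ≠ w := by
  have : Finite G := Nat.finite_of_card_ne_zero (hG ▸ hp.ne_zero)
  intro hw
  have e := efg k (G := G) w
  rw [hG, hU w, h, mul_one, mul_one] at e
  rcases stab hp hG w with h1 | h1
  · refine hp.one_lt.ne' (e.symm.trans (Set.ncard_eq_one.2 ⟨w.1.asIdeal, ?_⟩))
    refine Set.eq_singleton_iff_unique_mem.2 ⟨⟨w.1.isPrime, liesOver k w⟩, ?_⟩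
    rintro Q ⟨hQ, hQ'⟩
    have := w.1.isPrime
    obtain ⟨g, hg⟩ := Ideal.exists_smul_eq_of_isGaloisGroup (w.und k).1.asIdeal w.1.asIdeal Q G
    rw [← hg]
    exact congrArg (fun u : Pr F l => u.1.asIdeal) (h1 g)
  · exact hσ (h1 σ hw)

/-- primes that split contribute at least `p` times -/
theorem split (hZ : RowZ) (hp : p.Prime) (hG : Nat.card G = p) (σ : G) (A : Set (Pr k l))
    (hA : ∀ w : Pr F l, w.und k ∈ A → σ • w ≠ w) {s : ℝ} (hs : 1 < s) :
    p * PS A s ≤ PS (Set.univ : Set (Pr F l)) s := by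
  classical
  have : Finite G := Nat.finite_of_card_ne_zero (hG ▸ hp.ne_zero)
  have := Fintype.ofFinite G
  refine mul_tsum_le (Pr.und k) _ _ _ (wt_nonneg _ _) (wt_nonneg _ _) (sum_wt hZ _ hs) fun v => ?_
  by_cases hv : v ∈ A
  · obtain ⟨w, rfl⟩ := exists_over k (E := F) v
    have hi : Function.Injective fun g : G => g • w := by
      intro g g' (h : g • w = g' • w)
      rcases stab hp hG w with h1 | h1
      · exact absurd (h1 σ) (hA w hv)
      · exact (inv_mul_eq_one.1 (h1 (g'⁻¹ * g) (by rw [mul_smul, h, inv_smul_smul]))).symm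
    refine ⟨Finset.univ.image fun g : G => g • w, fun x hx => ?_, ?_⟩
    · obtain ⟨g, -, rfl⟩ := Finset.mem_image.1 hx
      exact und_smul k g w
    · rw [Finset.sum_image hi.injOn, Finset.sum_congr rfl
        (g := fun _ => wt A s (w.und k)) fun g _ => ?_]
      · simp [← hG]
      · have hg : (g • w).und k ∈ A := by rwa [und_smul]
        rw [wt_mem (Set.mem_univ _), nz_of_fd k (fd_of_ne k hp hG (hA _ hg)), und_smul, wt_mem hv]
  · exact ⟨∅, by simp, by simp [wt_not hv]⟩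

end Cyc

theorem und_und (k F : Type) {E : Type} [Field k] [NumberField k] [Field F] [NumberField F]
    [Field E] [NumberField E] [Algebra k F] [Algebra F E] [Algebra k E] [IsScalarTower k F E]
    {l : ℕ} (w : Pr E l) : (w.und F).und k = w.und k :=
  Subtype.ext (HeightOneSpectrum.ext (Ideal.under_under w.1.asIdeal))

theorem und_smul' {F F' G G' : Type} [Field F] [NumberField F] [Field F'] [NumberField F']
    [Algebra F F'] [Group G] [MulSemiringAction G F] [Group G'] [MulSemiringAction G' F'] {σ : G}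
    {σ' : G'} (h : ∀ x, algebraMap F F' (σ • x) = σ' • algebraMap F F' x) {l : ℕ} (w : Pr F' l) :
    (σ' • w).und F = σ • w.und F := by
  refine Subtype.ext (HeightOneSpectrum.ext (Ideal.ext fun x => ?_))
  have e : σ'⁻¹ • algebraMap (𝓞 F) (𝓞 F') x = algebraMap (𝓞 F) (𝓞 F') (σ⁻¹ • x) := by
    rw [inv_smul_eq_iff]
    ext
    have := h (σ⁻¹ • (x : F))
    rw [smul_inv_smul] at this
    exact this
  exact (mem_smul_iff σ' w.1 (algebraMap (𝓞 F) (𝓞 F') x)).trans
    (e ▸ (mem_smul_iff σ (w.und F).1 x).symm)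

theorem rowS2 (hZ : RowZ) (hR : RowRC) : RowS2 := by
  intro p hp k F k' F' G G' _ _ _ _ _ _ _ _ _ _ _ _ _ _ _ _ _ _ _ _ _ σ σ' l M B _ χ hG hG' hσ hσ'
    hl hU hB hχ h0 hN
  by_contra! hK
  have : Finite B := Nat.finite_of_card_ne_zero (hB ▸ hp.ne_zero)
  have : Finite G := Nat.finite_of_card_ne_zero (hG ▸ hp.ne_zero)
  have hl0 : l ≠ 0 := by omega
  set T : Set (Pr k l) := {v | χ (Finsupp.single v 1) = 0} with hT
  let S : Set (Pr k l) := {v | ∃ w : Pr F l, w.und k = v ∧ fd k w = 1}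
  have hST : S ⊆ T := by
    rintro _ ⟨w, rfl, hw⟩
    simpa [nrD_single, hw, hT] using hN (Finsupp.single w 1)
  obtain ⟨C1, h1⟩ := up hR k l M B χ hl hχ h0
  obtain ⟨C2, h2⟩ := low k F hZ hl0 S fun w hw => ⟨w, rfl, hw⟩
  obtain ⟨C3, h3⟩ := PS_univ k' l hZ hl0
  obtain ⟨C4, h4⟩ := PS_univ F' l hZ hl0
  rw [← IsGaloisGroup.card_eq_finrank G k F, hG] at h2
  rw [hB] at h1
  have hA : ∀ w : Pr F' l, w.und k' ∈ {v : Pr k' l | v.und k ∈ S} → σ' • w ≠ w := by
    rintro w ⟨u, hu, hf⟩ hw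
    rw [und_und, ← und_und k F w] at hu
    obtain ⟨g, hg⟩ := exists_smul k (G := G) hu
    have hf' : fd k (w.und F) = 1 := by
      rw [← hg, ← hf]
      exact Ideal.inertiaDeg_smul _ _ _
    refine ne_of_fd k hp hG hU hσ hf' ?_
    rw [← und_smul' hσ', hw]
  let n : ℝ := Module.finrank k k'
  let D : ℝ := n * PS (Set.univ : Set (Pr k l)) 2
  refine not_bdd (max (C3 + D + n * (C1 + C2)) (2 * (C3 + D + n * (C1 + C2)) + C4)) ?_
  filter_upwards [h1, h2, h3, h4, self_mem_nhdsWithin] with s g1 g2 g3 g4 (hs : 1 < s)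
  rw [le_max_iff, ← not_lt, ← imp_iff_not_or]
  intro g0
  have a1 := add_le_PS hZ hST hs
  have a2 : PS (Set.univ : Set (Pr k' l)) s ≤ PS {w : Pr k' l | fd k w ≠ 1} s +
      PS {w : Pr k' l | fd k w = 1} s :=
    PS_le_add hZ (fun w _ => (em (fd k w = 1)).symm) hs
  have a3 : PS {w : Pr k' l | fd k w = 1} s ≤ PS {v : Pr k' l | v.und k ∈ S} s +
      PS {w : Pr k' l | fd k w = 1 ∧ w.und k ∈ T \ S} s := by
    refine PS_le_add hZ (fun w (hw : fd k w = 1) => ?_) hs
    by_cases h : w.und k ∈ S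
    · exact Or.inl h
    · refine Or.inr ⟨hw, ?_, h⟩
      simpa [nrD_single, hw, hT] using hK (Finsupp.single w 1)
  have a4 : _ ≤ D := PS_deg k (E := k') (l := l) hZ hs
  have a5 : _ ≤ n * _ := PS_one k (E := k') hZ (T \ S) hs
  have a6 := split k' hZ hp hG' σ' _ hA hs
  have hp2 : (2 : ℝ) ≤ p := by exact_mod_cast hp.two_le
  have hn : 0 ≤ n := Nat.cast_nonneg _
  have b1 := PS_nonneg (T \ S) s
  have b2 := PS_nonneg {v : Pr k' l | v.und k ∈ S} s
  have c1 : PS (T \ S) s ≤ C1 + C2 := by nlinarith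
  have c2 := mul_le_mul_of_nonneg_left c1 hn
  have c3 := mul_le_mul_of_nonneg_right hp2 b2
  linarith [g3.1, g4.2]

end Pool.Agent.MP_db5b97_nt.H19
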