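import Pool.Agent.MP_db5b97_nt.H31.SpecT
import Pool.Agent.MP_db5b97_nt.H55.CT

/-! Injectivity in degree one for maps of two-term complexes. -/

namespace Pool.Agent.MP_db5b97_nt.H19

open H85 H55 H31

theorem rowGCT1 : RowGCT1 := by
  intro p P U' I' U I M _ _ _ _ _ _ _ _ _ _ _ _ _ a' a nU nI ⟨pp, hP, h1, h3, h2, h4, hc, h9, hL⟩
    c D β y hco hD hβ hy
  classical
  have hι : Eqv P (dg P a' nU) := dg_eqv h1 h2
  obtain ⟨C, _, _, π, hs, hπ, he⟩ := ex_quot (dg P a' nU) hι
  let r0 : I' × U × Co P U' →+ I :=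
    nI.comp (AddMonoidHom.fst _ _) - a.comp ((AddMonoidHom.fst _ _).comp (AddMonoidHom.snd _ _))
  have hr0 : ∀ x y, π x = π y → r0 x = r0 y := fun x y h => by
    obtain ⟨u, hu⟩ := (he (x - y)).1 (by rw [map_sub, h, sub_self])
    rw [← sub_eq_zero, ← map_sub, ← hu]
    exact sub_eq_zero.2 (hc u).symm
  choose sec hsec using hs
  have hs : Function.Surjective π := fun x => ⟨_, hsec x⟩
  let r : C →+ I := AddMonoidHom.mk' (fun x => r0 (sec x)) fun x y => by
    rw [← map_add]
    exact hr0 _ _ (by rw [map_add, hsec, hsec, hsec])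
  have hr : ∀ e, r (π e) = nI e.1 - a e.2.1 := fun e => hr0 _ _ (hsec _)
  let τ : Co P I →+ I := AddMonoidHom.mk' (fun y => ∑ t : P, t⁻¹ • y t) fun x y => by
    simp only [Co.add_apply, smul_add, Finset.sum_add_distrib]
  let ρ : C × Co P I →+ I := r.coprod τ
  have hρ0 : ∀ x, ρ (x, 0) = r x := fun x => by simp [ρ]
  have hρ : Eqv P ρ := by
    rintro s ⟨x, y⟩
    obtain ⟨e, rfl⟩ := hs x
    change r (s • π e) + ∑ t : P, t⁻¹ • y (t * s) = s • (r (π e) + ∑ t : P, t⁻¹ • y t)
    rw [← hπ, hr, hr, smul_add, smul_sub, ← h4, ← h3, Finset.smul_sum,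
      ← Equiv.sum_comp (Equiv.mulRight s) fun t => s • t⁻¹ • y t]
    simp [mul_smul]
  have hρs : Function.Surjective ρ := fun D => ⟨(0, Pi.single 1 D), by
    change r 0 + ∑ t : P, t⁻¹ • (Pi.single 1 D : P → I) t = D
    rw [map_zero, zero_add, Finset.sum_eq_single 1] <;> simp +contextual⟩
  obtain ⟨Z, _, _, κ, hi, hκ, he'⟩ := ex_ker ρ hρ
  obtain ⟨k1, k0⟩ := ct2 (A := Z) pp hP fun Q σ L hz => by
    have H := hL Q σ L.nr L.pw L.nm
    refine z_lay L hκ hρ hi hρs he' hz H.hI (c_h1 L H h1 h2 (h9 Q) hs hπ he) ?_ ?_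
    · intro x hx h hn
      exact c_inj L H h1 h2 (h9 Q) hs hπ he h4 hc hr hx h (hρ0 x ▸ hn)
    · intro D hD h
      simpa only [hρ0] using c_srj H hπ hr hD h
  let x : M →+ I' × U × Co P U' := AddMonoidHom.mk' (fun m => (D m, β m, fun t => c t (t • m)))
    fun m n => Prod.ext (map_add D m n) (Prod.ext (map_add β m n)
      (funext fun t => by
        change c t (t • (m + n)) = c t (t • m) + c t (t • n)
        rw [smul_add, map_add]))
  have hx : ∀ (s : P) m, dg P a' nU (c s (s • m)) = s • x m - x (s • m) := fun s m => by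
    refine Prod.ext ?_ (Prod.ext ?_ (funext fun t => ?_))
    · have := DFunLike.congr_fun (hD s) (s • m)
      rw [Hm.post_apply, Hm.sub_apply, Hm.smul_apply, inv_smul_smul] at this
      exact this
    · have := DFunLike.congr_fun (hβ s) (s • m)
      rw [Hm.post_apply, Hm.sub_apply, Hm.smul_apply, inv_smul_smul] at this
      exact this
    · have := DFunLike.congr_fun (hco t s) (t • s • m)
      rw [Hm.add_apply, Hm.smul_apply, inv_smul_smul] at this
      change t • c s (s • m) = c (t * s) ((t * s) • m) - c t (t • s • m)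
      rw [mul_smul, this, add_sub_cancel_left]
  let w : M →+ Co P I := AddMonoidHom.mk' (fun m t => -y (t • m)) fun m n => funext fun t => by
    change -y (t • (m + n)) = -y (t • m) + -y (t • n)
    rw [smul_add, map_add, neg_add]
  have hw : ∀ (s : P) m, w (s • m) = s • w m := fun s m => funext fun t => by
    change -y (t • s • m) = -y ((t * s) • m)
    rw [mul_smul]
  have hz : ∀ m, ∃ z, κ z = (π (x m), w m) := fun m => (he' _).1 (by
    have e := DFunLike.congr_fun hy m
    rw [Hm.sub_apply, Hm.post_apply, Hm.post_apply, tr_apply, Hm.sum_apply,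
      ← Equiv.sum_comp (Equiv.inv P)] at e
    change r (π (x m)) + ∑ t : P, t⁻¹ • -y (t • m) = 0
    rw [hr]
    change nI (D m) - a (β m) + _ = 0
    rw [e, ← Finset.sum_add_distrib]
    simp)
  choose z hz using hz
  obtain ⟨g, hg⟩ := ct1 pp hP k0 k1
    (AddMonoidHom.mk' z fun m n => hi (by simp [hz])) fun s m => hi (by
      have := (he _).2 ⟨_, hx s m⟩
      rw [map_sub, hπ, sub_eq_zero] at this
      rw [hκ, AddMonoidHom.mk'_apply, hz, hz, Prod.smul_mk, this, hw])
  obtain ⟨g', hg'⟩ := lift_free π hs ((AddMonoidHom.fst _ _).comp (κ.comp g))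
  have hu : ∀ m, ∃ u, dg P a' nU u = x m - Tr P g' m := fun m => (he _).1 (by
    have := congrArg (fun z => (κ z).1) (hg m)
    simp only [Tr_apply, map_sum, hκ _ _, AddMonoidHom.mk'_apply, hz, Prod.fst_sum,
      Prod.smul_fst] at this
    simp only [Tr_apply, map_sub, map_sum, hπ _ _, hg', ← this]
    simp)
  choose u hu using hu
  refine ⟨Hm.of (AddMonoidHom.mk' u fun m n => dg_inj (P := P) (a' := a') (nU := nU) ?_),
    Hm.of ((AddMonoidHom.fst _ _).comp g'),
    fun s => Hm.ext fun m => dg_inj (P := P) (a' := a') (nU := nU) ?_, Hm.ext fun m => ?_⟩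
  · rw [map_add, hu, hu, hu, map_add, map_add]
    abel
  · obtain ⟨n, rfl⟩ : ∃ n, m = s • n := ⟨s⁻¹ • m, (smul_inv_smul s m).symm⟩
    rw [Hm.sub_apply, Hm.smul_apply, inv_smul_smul, hx]
    change _ = dg P a' nU (s • u n - u (s • n))
    rw [map_sub, hι, hu, hu, Tr_eqv g', smul_sub]
    abel
  · have e := congrArg Prod.fst (hu m)
    rw [Tr_apply, Prod.fst_sub, Prod.fst_sum] at e
    rw [Hm.post_apply, Hm.sub_apply, tr_apply, Hm.sum_apply]
    exact e

end Pool.Agent.MP_db5b97_nt.H19
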