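import Pool.Agent.MP_db5b97_nt.H31.SpecG

/-! A large simple quotient is invisible on an orbit of a solvable normal subgroup. -/

set_option autoImplicit false

namespace Pool.Agent.MP_db5b97_nt.H19

open MulAction Pool.Agent.MP_db5b97_nt.H31
open scoped Pointwise commutatorElement

lemma inf_surj {L S : Type} [Group L] [Group S] [IsSimpleGroup S] (φ : L →* S)
    (hS : ∃ a b : S, a * b ≠ b * a) (N1 N2 : Subgroup L) [N1.Normal] [N2.Normal]
    (h1 : N1.map φ = ⊤) (h2 : N2.map φ = ⊤) : (N1 ⊓ N2).map φ = ⊤ := by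
  have h3 : ⁅(⊤ : Subgroup S), (⊤ : Subgroup S)⁆ = ⊤ := by
    rcases (Subgroup.commutator_normal (⊤ : Subgroup S) ⊤).eq_bot_or_eq_top with h | h
    · obtain ⟨a, b, hab⟩ := hS
      have := Subgroup.commutator_mem_commutator (Subgroup.mem_top a) (Subgroup.mem_top b)
      rw [h, Subgroup.mem_bot, commutatorElement_eq_one_iff_mul_comm] at this
      exact absurd this hab
    · exact h
  refine top_le_iff.1 (le_trans ?_ (Subgroup.map_mono (Subgroup.commutator_le_inf N1 N2)))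
  rw [Subgroup.map_commutator, h1, h2, h3]

lemma all_surj {L S ι : Type} [Group L] [Group S] [IsSimpleGroup S] (φ : L →* S)
    (hφ : Function.Surjective φ) (hS : ∃ a b : S, a * b ≠ b * a) (N : ι → Subgroup L)
    (hN : ∀ i, (N i).Normal) (h : ∀ i, (N i).map φ = ⊤) (I : Finset ι) :
    ∃ M : Subgroup L, M.Normal ∧ M.map φ = ⊤ ∧ ∀ i ∈ I, M ≤ N i := by
  classical
  induction I using Finset.induction_on with
  | empty => exact ⟨⊤, inferInstance, Subgroup.map_top_of_surjective φ hφ, by simp⟩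
  | insert i I _ ih =>
    obtain ⟨M, a, b, c⟩ := ih
    have := hN i
    refine ⟨M ⊓ N i, inferInstance, inf_surj φ hS M (N i) b (h i), fun j hj => ?_⟩
    rcases Finset.mem_insert.1 hj with rfl | hj
    · exact inf_le_right
    · exact inf_le_left.trans (c j hj)

variable {G : Type} [Group G]

/-- the elements that stabilise every orbit of `A` -/
def KK (B : Type) [MulAction G B] (A : Subgroup G) : Subgroup G where
  carrier := {g | ∀ x : B, ∃ a ∈ A, g • x = a • x}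
  one_mem' := fun x => ⟨1, A.one_mem, rfl⟩
  mul_mem' := by
    intro g h hg hh x
    obtain ⟨a, a1, a2⟩ := hh x
    obtain ⟨b, b1, b2⟩ := hg (h • x)
    exact ⟨b * a, A.mul_mem b1 a1, by rw [mul_smul, b2, a2, mul_smul]⟩
  inv_mem' := by
    intro g hg x
    obtain ⟨a, a1, a2⟩ := hg (g⁻¹ • x)
    refine ⟨a⁻¹, A.inv_mem a1, ?_⟩
    rw [smul_inv_smul] at a2
    rw [eq_inv_smul_iff, ← a2]

/-- the orbits of `A'` inside the orbit of `x` under `A` -/
def OO {B : Type} [MulAction G B] (A A' : Subgroup G) [A'.Normal] (x : B) :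
    SubMulAction (KK B A) (Set B) where
  carrier := {T | ∃ a ∈ A, T = orbit A' (a • x)}
  smul_mem' := by
    rintro c _ ⟨a, a1, rfl⟩
    obtain ⟨b, b1, b2⟩ := c.2 (a • x)
    refine ⟨b * a, A.mul_mem b1 a1, ?_⟩
    rw [mul_smul, ← b2]
    exact smul_orbit_eq_orbit_smul A' _ (c : G)

lemma step (hol : RowHOL) [Finite G] {B S : Type} [MulAction G B] [Fintype B] [Group S]
    [IsSimpleGroup S] (ψ : G →* S) (hS : ∃ a b : S, a * b ≠ b * a)
    (hc : Fintype.card B ^ (1 + Nat.log 2 (Fintype.card B)) < Nat.card S) (A : Subgroup G)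
    [A.Normal] (h : ∀ s, ∃ g ∈ KK B A, ψ g = s) : ∀ s, ∃ g ∈ KK B ⁅A, A⁆, ψ g = s := by
  classical
  let φ : KK B A →* S := ψ.comp (KK B A).subtype
  have hφ : Function.Surjective φ := fun s => by
    obtain ⟨g, a, b⟩ := h s
    exact ⟨⟨g, a⟩, b⟩
  have hA : A ≤ KK B A := fun a ha x => ⟨a, ha, rfl⟩
  have sm : ∀ (x : B) (c : KK B A) (T : OO A ⁅A, A⁆ x) (y : B), (T : Set B) = orbit (⁅A, A⁆ :) y →
      ((c • T : OO A ⁅A, A⁆ x) : Set B) = orbit (⁅A, A⁆ :) ((c : G) • y) := fun x c T y e => by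
    rw [SubMulAction.val_smul, e]
    exact smul_orbit_eq_orbit_smul _ _ (c : G)
  have key : ∀ x : B, (toPermHom (KK B A) (OO A ⁅A, A⁆ x)).ker.map φ = ⊤ := by
    intro x
    let _ : Fintype (OO A ⁅A, A⁆ x) := Fintype.ofFinite _
    have : Nonempty (OO A ⁅A, A⁆ x) := ⟨⟨_, 1, A.one_mem, rfl⟩⟩
    have h1 := hol (KK B A) (OO A ⁅A, A⁆ x) (A.subgroupOf (KK B A)) inferInstance (by
      rintro ⟨_, a, a1, rfl⟩ ⟨_, b, b1, rfl⟩
      have m := A.mul_mem b1 (A.inv_mem a1)
      refine ⟨⟨b * a⁻¹, hA m⟩, m, Subtype.ext ?_⟩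
      rw [sm x _ _ _ rfl, mul_smul, inv_smul_smul]) (by
      rintro a a1 b b1 ⟨_, c, c1, rfl⟩
      refine Subtype.ext ?_
      rw [sm x _ _ _ (sm x _ _ _ rfl), sm x _ _ _ (sm x _ _ _ rfl), orbit_eq_iff]
      refine ⟨⟨⁅(a : G), (b : G)⁆, Subgroup.commutator_mem_commutator a1 b1⟩, ?_⟩
      simp [commutatorElement_def, mul_smul])
    have h2 : Fintype.card (OO A ⁅A, A⁆ x) ≤ Fintype.card B := by
      refine Fintype.card_le_of_injective (fun T => T.2.choose • x) fun T T' e => Subtype.ext ?_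
      rw [T.2.choose_spec.2, T'.2.choose_spec.2]
      exact congrArg _ e
    have h3 : Fintype.card (OO A ⁅A, A⁆ x) ^ (1 + Nat.log 2 (Fintype.card (OO A ⁅A, A⁆ x))) ≤
        Fintype.card B ^ (1 + Nat.log 2 (Fintype.card B)) :=
      (Nat.pow_le_pow_left h2 _).trans (Nat.pow_le_pow_right (Fintype.card_pos.trans_le h2)
        (Nat.add_le_add_left (Nat.log_mono_right h2) 1))
    refine ((MonoidHom.normal_ker _).map φ hφ).eq_bot_or_eq_top.resolve_left fun e => ?_
    have h4 := Subgroup.index_antitone ((Subgroup.map_eq_bot_iff _).1 e)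
    rw [Subgroup.index_ker, MonoidHom.range_eq_top.2 hφ, Subgroup.card_top] at h4
    omega
  obtain ⟨M, -, m1, m2⟩ := all_surj φ hφ hS _ (fun x => MonoidHom.normal_ker _) key Finset.univ
  intro s
  obtain ⟨g, g1, g2⟩ := Subgroup.mem_map.1 (m1 ▸ Subgroup.mem_top s)
  refine ⟨g, fun x => ?_, g2⟩
  have h1 : g • (⟨_, 1, A.one_mem, rfl⟩ : OO A ⁅A, A⁆ x) = ⟨_, 1, A.one_mem, rfl⟩ :=
    Equiv.congr_fun (MonoidHom.mem_ker.1 (m2 x (Finset.mem_univ x) g1)) _
  have h2 := (sm x g ⟨_, 1, A.one_mem, rfl⟩ _ rfl).symm.trans (congrArg Subtype.val h1)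
  simp only [one_smul, orbit_eq_iff] at h2
  obtain ⟨a, ha⟩ := h2
  exact ⟨a, a.2, ha.symm⟩

theorem rowNP : RowHOL → RowNP := by
  intro hol
  intro G B S _ _ _ _ _ _ R ψ hR hs ht hψ hS hc
  have key : ∀ n, ((derivedSeries R n).map R.subtype).Normal ∧
      ∀ s, ∃ g ∈ KK B ((derivedSeries R n).map R.subtype), ψ g = s := by
    intro n
    induction n with
    | zero =>
      rw [derivedSeries_zero, ← MonoidHom.range_eq_map, Subgroup.range_subtype]
      refine ⟨hR, fun s => ?_⟩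
      obtain ⟨g, rfl⟩ := hψ s
      refine ⟨g, fun x => ?_, rfl⟩
      obtain ⟨a, a1, a2⟩ := ht x (g • x)
      exact ⟨a, a1, a2.symm⟩
    | succ n ih =>
      have := ih.1
      rw [derivedSeries_succ, Subgroup.map_commutator]
      exact ⟨inferInstance, step hol ψ hS hc _ ih.2⟩
  obtain ⟨n, hn⟩ := hs.solvable
  intro s
  obtain ⟨g, g1, g2⟩ := (key n).2 s
  refine ⟨g, g2, fun x => ?_⟩
  obtain ⟨a, a1, a2⟩ := g1 x
  rw [hn, Subgroup.map_bot, Subgroup.mem_bot] at a1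
  rw [a2, a1, one_smul]

end Pool.Agent.MP_db5b97_nt.H19
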