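import Pool.Agent.MP_db5b97_nt.H31.SpecA
import Pool.Agent.MP_db5b97_nt.H85.PI

/-! The sharp bound for lattices. -/

namespace Pool.Agent.MP_db5b97_nt.H19

open MulAction H85 H31 Filter

variable {H N : Subgroup Ga} {X : Finset Om} {M : AddSubgroup (Om →₀ ℤ)}
  {c : Ga → (Om →₀ ℤ) → Un Om}

theorem pi_main' (h2 : RowNT2) (hD : RowD) (hE : RowEs) (hI : RowIDX) (hIs : RowIDXs) {y K : ℕ}
    (hy1 : 3 * X.card ≤ y ^ 2) (hy2 : 3 ≤ y)
    (hG : ∀ (G : Type) [Group G] [Fintype G] [MulAction G X] (x : ℕ → G) (A : Finset ℕ),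
      (∀ p ∈ A, p.Prime ∧ y ≤ p ∧ (∀ a : X, x p ^ p • a = a) ∧ QA G X (x p) p) →
      GoodFam X.card y K A) [ho : Ope N] [hn : Nrm H N]
    {r : ℕ} (hNH : N ≤ H) (hi : ∃ i : Om, i ^ 2 = -1 ∧ ∀ σ ∈ H, σ i = i)
    (hX : ∀ σ ∈ H, ∀ x ∈ X, σ x ∈ X) (h : ∀ ν ∈ N, ∀ x ∈ X, ν x = x)
    (h' : ∀ σ ∈ H, (∀ x ∈ X, σ x = x) → σ ∈ N) (hr : 0 < r) (hs : ∀ y ∈ M, y.support ⊆ X)
    (hrM : ∀ x ∈ X, Finsupp.single x (r : ℤ) ∈ M) (hM : Stab H M) (hc : Coc H M c)
    (hcN : ∀ ν ∈ N, ∀ y ∈ M, c ν y = 0) :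
    ∃ (H' : Subgroup Ga) (A : Finset ℕ), IsOpen (H' : Set Ga) ∧ H' ≤ H ∧ GoodFam X.card y K A ∧
      (∀ p ∈ A, p.Prime) ∧ H'.relIndex H ≤
        (∏ p ∈ (Finset.range y).filter Nat.Prime, p ^ JJ (Nat.log p X.card)) * ∏ p ∈ A, p ∧
      ∃ β, Bd H' M 1 c β := by
  classical
  let _ := Qt.xact hX h
  have := Qt.faithful (S := H) (N := N) (T := N) inf_le_right
  have hA := h2.h90 (Fx N) (Qt H N)
  have tr := fun P n => transferX hX h hs hNH hM hc hcN (P := P) (n := n)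
  have hM' : Stab ⊤ (M.comap (jX X)) := fun (q : Qt H N) _ => Quotient.inductionOn' q fun s y hy =>
    AddSubgroup.mem_comap.2 ((jX_smul hX h s y).symm ▸ hM s s.2 _ hy)
  have htop : H ≤ pre (⊤ : Subgroup (Qt H N)) := fun s hs => mem_pre.2 ⟨hs, trivial⟩
  have hfin : Module.Finite ℤ M := Module.Finite.of_injective
    ((Finsupp.comapDomain.addMonoidHom (f := ((↑) : X → Om)) Subtype.val_injective).comp
      M.subtype).toIntLinearMap fun x y e => Subtype.ext <| by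
    have := congrArg (jX X) e
    exact (Finsupp.mapDomain_comapDomain _ Subtype.val_injective x.1
      fun a ha => ⟨⟨a, hs _ x.2 ha⟩, rfl⟩).symm.trans (this.trans (Finsupp.mapDomain_comapDomain _
        Subtype.val_injective y.1 fun a ha => ⟨⟨a, hs _ y.2 ha⟩, rfl⟩))
  have hz : ∀ z, r • z ∈ M.comap (jX X) := fun z => by
    induction z using Finsupp.induction_linear with
    | zero => simp
    | add x y hx hy => exact smul_add r x y ▸ add_mem hx hy
    | single x n =>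
      have := zsmul_mem (hrM x x.2) n
      rw [Finsupp.smul_single, smul_eq_mul, mul_comm] at this
      rwa [Finsupp.smul_single, AddSubgroup.mem_comap, jX, Finsupp.mapDomain.addMonoidHom_apply,
        Finsupp.mapDomain_single, nsmul_eq_mul]
  obtain ⟨β0, h0⟩ := tr ⊤ (1 * r) <| (kill_perm (U := ⊤) (fun x : X => Finsupp.single x (1 : ℤ))
    (Finsupp.basisSingleOne (R := ℤ)).linearIndependent
    (fun u x => Finsupp.comapSMul_single _ _ _) hA).retract id (fun z => r • z)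
    (fun _ _ _ _ => rfl) (fun x _ y _ => smul_add r x y)
    (fun y _ => (Finsupp.basisSingleOne (R := ℤ)).mem_span y) (fun z _ => hz z) (fun _ _ _ _ => rfl) (fun s _ z _ => (smul_comm s r z).symm)
    fun _ _ => rfl
  let _ : Fintype (Qt H N) := Fintype.ofFinite _
  obtain ⟨x0, hE⟩ := hE (Qt H N) X
  rw [Fintype.card_coe] at hE
  have big : ∀ p, ¬ p < y → X.card < p * (p - 1) ∧ X.card < p ^ 2 ∧ p ≠ 2 := fun p hp => by
    obtain ⟨q, rfl⟩ : ∃ q, p = q + 1 := ⟨p - 1, by omega⟩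
    have a1 : y ^ 2 ≤ (q + 1) ^ 2 := Nat.pow_le_pow_left (by omega) 2
    have a2 : 2 ≤ q := by omega
    rw [Nat.add_sub_cancel]
    exact ⟨by nlinarith, by nlinarith, by omega⟩
  have key : ∀ p ∈ r.primeFactors, ∃ H' : Subgroup Ga, IsOpen (H' : Set Ga) ∧ H' ≤ H ∧
      H'.relIndex H ≤
        (if p < y then p ^ Jb (Nat.log p X.card) else if QA (Qt H N) X (x0 p) p then p else 1) ∧
      ∃ t : ℕ, t.Coprime p ∧ ∃ β, Bd H' M t c β := fun p hp => by
    have hp := Nat.prime_of_mem_primeFactors hp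
    have : Fact p.Prime := ⟨hp⟩
    split_ifs with hT hQ
    · refine hI p hp _ H N M c _ _ ho.out hNH hn.conj hi hM (fix_supp hs h) hc hcN
        (fun σ hσ => ?_) fun S h1 h2 h3 => ?_
      · let g : Qt H N := (⟨σ, hσ⟩ : H)
        have hg := (orderOf_pos g).ne'
        have hP : IsPGroup p (Subgroup.zpowers (g ^ ordCompl[p] (orderOf g))) := by
          rintro ⟨_, n, rfl⟩
          refine ⟨(orderOf g).factorization p, Subtype.ext ?_⟩
          rw [Subgroup.coe_pow, ← zpow_natCast, ← zpow_mul, mul_comm, zpow_mul, zpow_natCast,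
            ← pow_mul, mul_comm, Nat.ordProj_mul_ordCompl_eq_self, pow_orderOf_eq_one, one_zpow]
          rfl
        refine ⟨_, (Nat.coprime_ordCompl hp hg).symm, h' _ (pow_mem hσ _) fun x hx => ?_⟩
        have := d_pow hP (stabilizer _ (⟨x, hx⟩ : X)) (k := Nat.log p X.card) (by
          rw [index_stabilizer]
          exact ((Set.ncard_le_card _).trans_eq (by simp)).trans_lt
            (Nat.lt_pow_succ_log_self hp.one_lt _)) ⟨_, Subgroup.mem_zpowers _⟩
        rw [pow_mul]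
        exact congrArg Subtype.val this
      · obtain ⟨β, hβ⟩ := tr _ _ (hD p hp (Qt H N) X _ hA ((S.subgroupOf H).map
          (QuotientGroup.mk' _)) _ (by
            rintro ⟨_, s, hs, rfl⟩
            obtain ⟨k, hk⟩ := h3 s hs
            exact ⟨k, Subtype.ext ((QuotientGroup.eq_one_iff (s ^ p ^ k)).2 hk)⟩) (hM'.mono le_top))
        rw [Fintype.card_coe] at hβ
        exact ⟨β, hβ.mono (le_pre_map h2) le_rfl⟩
    · exact hIs p X H N M c r hp (big p hT).2.2 (big p hT).1 ho.out hNH hn.conj hi hX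
        (fun σ hσ => ⟨h σ, h' σ hσ⟩) hr hs hrM hM hc hcN
    · obtain ⟨t, ht, hk⟩ := (hE p hp (big p hT).2.1).2 hQ _ hA _ hM'
      obtain ⟨β, hβ⟩ := tr _ _ hk
      exact ⟨H, (Ope.mono hNH).out, le_rfl, H.relIndex_self.le, t, ht, β,
        hβ.mono htop le_rfl⟩
  have all : ∀ s ⊆ r.primeFactors, ∃ H' : Subgroup Ga, IsOpen (H' : Set Ga) ∧ H' ≤ H ∧
      H'.relIndex H ≤ ∏ p ∈ s,
        (if p < y then p ^ Jb (Nat.log p X.card) else if QA (Qt H N) X (x0 p) p then p else 1) ∧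
      ∃ n, n ∣ r ∧ (∀ p ∈ s, n.Coprime p) ∧ ∃ β, Bd H' M n c β := fun s => by
    induction s using Finset.induction_on with
    | empty => exact fun _ => ⟨H, (Ope.mono hNH).out, le_rfl, by simp, _, by simp, by simp, β0,
        h0.mono htop le_rfl⟩
    | insert p s hps ih =>
      intro hsub
      obtain ⟨H1, o1, l1, i1, n, hn, hn', β1, b1⟩ := ih ((Finset.subset_insert p s).trans hsub)
      obtain ⟨H2, o2, -, i2, t, ht, β2, b2⟩ := key p (hsub (Finset.mem_insert_self p s))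
      refine ⟨H2 ⊓ H1, o2.inter o1, inf_le_right.trans l1, ?_, n.gcd t,
        (Nat.gcd_dvd_left n t).trans hn, fun q hq => ?_,
        (b1.mono inf_le_right le_rfl).gcd (b2.mono inf_le_left le_rfl)⟩
      · rw [Finset.prod_insert hps]
        exact Subgroup.relIndex_inf_le.trans (Nat.mul_le_mul i2 i1)
      · rcases Finset.mem_insert.1 hq with rfl | hq
        · exact ht.coprime_dvd_left (Nat.gcd_dvd_right n t)
        · exact (hn' q hq).coprime_dvd_left (Nat.gcd_dvd_left n t)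
  obtain ⟨H', o, l, i, n, hn, hn', hβ⟩ := all _ le_rfl
  obtain rfl : n = 1 := Nat.eq_one_iff_not_exists_prime_dvd.2 fun p hp hd =>
    hp.coprime_iff_not_dvd.1 (hn' p (Nat.mem_primeFactors.2 ⟨hp, hd.trans hn, hr.ne'⟩)).symm hd
  refine ⟨H', r.primeFactors.filter fun p => ¬ p < y ∧ QA (Qt H N) X (x0 p) p, o, l,
    hG _ x0 _ fun p hp => ?_, fun p hp => Nat.prime_of_mem_primeFactors (Finset.mem_filter.1 hp).1,
    i.trans ?_, hβ⟩
  · obtain ⟨a1, a2, a3⟩ := Finset.mem_filter.1 hp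
    have a4 := Nat.prime_of_mem_primeFactors a1
    exact ⟨a4, not_lt.1 a2, (hE p a4 (big p a2).2.1).1, a3⟩
  · rw [Finset.prod_ite, ← Finset.prod_filter, Finset.filter_filter]
    refine Nat.mul_le_mul (Finset.prod_le_prod_of_subset_of_one_le' (fun p hp => ?_)
      fun p hp _ => Nat.one_le_pow _ _ (Finset.mem_filter.1 hp).2.pos) le_rfl
    obtain ⟨a1, a2⟩ := Finset.mem_filter.1 hp
    exact Finset.mem_filter.2 ⟨Finset.mem_range.2 a2, Nat.prime_of_mem_primeFactors a1⟩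

theorem rowPIs : RowNT2 → RowD → RowEs → RowIDX → RowIDXs → RowGOOD → RowNUM → RowSMALL →
    RowPIs := by
  intro h2 hD hE hI hIs ⟨C0, C, hG⟩ hNUM hS ε hε
  obtain ⟨η, e1, e2, e3⟩ := hS.one (ε / 2) (by positivity)
  filter_upwards [e3, hS.big η C0 e1, hS.big η 3 e1, hNUM η (ε / 2) C e1 e2 (by positivity)]
    with n f1 f2 f3 f4
  intro X H N M c r hn hN hNH hi hX h hr hs hrM hM hc hcN
  subst hn
  have : Ope N := ⟨hN⟩
  have : N.FiniteIndex := ⟨index_ne⟩
  have : Ope N.normalCore := ⟨Subgroup.isOpen_of_isClosed_of_finiteIndex _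
    (N.normalCore_isClosed (N.isClosed_of_isOpen hN))⟩
  have : Nrm H N.normalCore := ⟨fun s _ t ht => N.normalCore_normal.conj_mem t ht s⟩
  have h1 := N.normalCore_le
  let N0 := H ⊓ fixingSubgroup Ga (X : Set Om)
  have hN0 : ∀ s, s ∈ N0 ↔ s ∈ H ∧ ∀ x ∈ X, s x = x := fun s =>
    and_congr_right' ((mem_fixingSubgroup_iff Ga).trans Iff.rfl)
  have : Ope N0 := Ope.mono (S := N) fun s hs => (hN0 s).2 ⟨hNH hs, h s hs⟩
  have : Nrm H N0 := ⟨fun s hs t ht => (hN0 _).2 ⟨mul_mem (mul_mem hs ht.1) (inv_mem hs),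
    fun x hx => by
      rw [AlgEquiv.mul_apply, AlgEquiv.mul_apply, ((hN0 t).1 ht).2 _ (hX _ (inv_mem hs) x hx)]
      exact s.apply_symm_apply x⟩⟩
  have := Qt.faithful (S := H) (N := N.normalCore) (T := N.normalCore) inf_le_right
  obtain ⟨β0, h0⟩ := transferX hX (fun ν hν => h ν (h1 hν)) hs (h1.trans hNH) hM hc
    (fun ν hν => hcN ν (h1 hν)) (P := (N0.subgroupOf H).map (QuotientGroup.mk' _)) (n := 1) (by
      let _ := Qt.xact (N := N.normalCore) hX (fun ν hν => h ν (h1 hν))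
      have := Module.Finite.of_injective (M.comap (jX X)).subtype.toIntLinearMap
        Subtype.val_injective
      refine kill_triv (h2.h90 _ _ _) ?_
      rintro _ ⟨s, hs, rfl⟩ y -
      exact (Finsupp.mapDomain_congr (g := id) fun (x : X) _ =>
        Subtype.ext (((hN0 s).1 hs).2 x x.2)).trans Finsupp.mapDomain_id)
  obtain ⟨H', T, a1, a2, a3, a4, a5, β, hβ⟩ := pi_main' (N := N0) h2 hD hE hI hIs f3.1 f3.2
    (fun G _ _ _ x A hA => by
      have := hG G X _ x A (by rw [Fintype.card_coe]; exact f2.1) f2.2 hA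
      rwa [Fintype.card_coe] at this) inf_le_left hi hX
    (fun ν hν => ((hN0 ν).1 hν).2) (fun s hs h => (hN0 s).2 ⟨hs, h⟩) hr hs hrM hM
    (hc.sub_bd hM h0.1 1) fun ν hν y hy => sub_eq_zero.2 (h0.2 ν (le_pre_map inf_le_left hν) y hy)
  refine ⟨H', a1, a2, ?_, fun y => β y + β0 y, fun x hx y hy => ?_, fun s hs y hy => ?_⟩
  · have b1 : ((∏ p ∈ T, p : ℕ) : ℝ) ≤ Real.exp ((1 + ε / 2) * sz X.card) := by
      refine le_trans (le_of_eq ?_) (Real.exp_le_exp.2 (f4 T a3))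
      rw [Real.exp_sum, Nat.cast_prod]
      exact Finset.prod_congr rfl fun p hp =>
        (Real.exp_log (by exact_mod_cast (a4 p hp).pos)).symm
    refine (Nat.cast_le.2 a5).trans ?_
    rw [Nat.cast_mul, show (1 + ε) * sz X.card = ε / 2 * sz X.card + (1 + ε / 2) * sz X.card by ring,
      Real.exp_add]
    exact mul_le_mul f1 b1 (by positivity) (by positivity)
  · simp only [hβ.1 x hx y hy, h0.1 x hx y hy]
    abel
  · have := hβ.2 s hs y hy
    rw [one_smul, sub_eq_iff_eq_add] at this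
    rw [this, smul_add, add_sub_add_comm]

end Pool.Agent.MP_db5b97_nt.H19
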